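import Mathlib

/-!
The Cauchy-Schwarz inequality for additive energies, and the level sets of a function.
-/

set_option autoImplicit false

namespace Pool.Agent.L5helper30.LD

open Finset
open scoped Pointwise

variable {G : Type} [AddCommGroup G] [DecidableEq G]

/-- number of representations as a difference -/
def dif (s : Finset G) (d : G) : ℕ := ((s ×ˢ s).filter fun x => x.1 - x.2 = d).card

theorem energy_eq (s t Z : Finset G) (hZ : s - s ⊆ Z) :
    s.addEnergy t = ∑ d ∈ Z, dif s d * dif t d := by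
  unfold Finset.addEnergy
  rw [Finset.card_eq_sum_card_fiberwise (f := fun x : (G × G) × G × G => x.1.1 - x.1.2) (t := Z)]
  · refine Finset.sum_congr rfl fun d _ => ?_
    unfold dif
    rw [← Finset.card_product]
    apply Finset.card_bij (fun x _ => (x.1, (x.2.2, x.2.1)))
    · rintro ⟨⟨a, b⟩, ⟨a', b'⟩⟩ h
      simp only [mem_filter, mem_product] at h ⊢
      obtain ⟨⟨⟨⟨h1, h2⟩, h3, h4⟩, h5⟩, h6⟩ := h
      refine ⟨⟨⟨h1, h2⟩, h6⟩, ⟨h4, h3⟩, ?_⟩
      rw [← h6, sub_eq_sub_iff_add_eq_add, add_comm b' b]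
      exact h5.symm
    · rintro ⟨⟨a, b⟩, ⟨a', b'⟩⟩ _ ⟨⟨c, d⟩, ⟨c', d'⟩⟩ _ h
      simp only [Prod.mk.injEq] at h ⊢
      tauto
    · rintro ⟨⟨a, b⟩, ⟨a', b'⟩⟩ h
      simp only [mem_filter, mem_product] at h
      obtain ⟨⟨⟨h1, h2⟩, h3⟩, ⟨h4, h5⟩, h6⟩ := h
      refine ⟨⟨⟨a, b⟩, ⟨b', a'⟩⟩, ?_, rfl⟩
      simp only [mem_filter, mem_product]
      refine ⟨⟨⟨⟨h1, h2⟩, h5, h4⟩, ?_⟩, h3⟩
      rw [← h6] at h3
      rw [sub_eq_sub_iff_add_eq_add] at h3
      rw [h3, add_comm]
  · intro x hx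
    simp only [coe_filter, mem_product, Set.mem_ofPred_eq] at hx
    exact hZ (Finset.sub_mem_sub hx.1.1.1 hx.1.1.2)

theorem energy_cs (s t : Finset G) :
    (s.addEnergy t) ^ 2 ≤ s.addEnergy s * t.addEnergy t := by
  set Z := (s - s) ∪ (t - t) with hZ
  have h1 : s - s ⊆ Z := subset_union_left
  have h2 : t - t ⊆ Z := subset_union_right
  rw [energy_eq s t Z h1, energy_eq s s Z h1, energy_eq t t Z h2]
  have h3 := sum_mul_sq_le_sq_mul_sq (R := ℕ) Z (fun d => dif s d) (fun d => dif t d)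
  simpa only [sq] using h3

/-- the level sets of a function -/
def lev (f : G → ℕ) (X : Finset G) (i : ℕ) : Finset G :=
  X.filter fun z => 2 ^ i ≤ f z ∧ f z < 2 ^ (i + 1)

theorem le_sum_lev (f : G → ℕ) (X : Finset G) (I : ℕ) (hX : ∀ z, f z ≠ 0 → z ∈ X)
    (hI : ∀ z, f z < 2 ^ I) (z : G) :
    f z ≤ ∑ i ∈ range I, 2 ^ (i + 1) * (if z ∈ lev f X i then 1 else 0) := by
  rcases Nat.eq_zero_or_pos (f z) with h | h
  · rw [h]; exact Nat.zero_le _
  · have h1 : 2 ^ Nat.log 2 (f z) ≤ f z := Nat.pow_log_le_self 2 h.ne'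
    have h2 : f z < 2 ^ (Nat.log 2 (f z) + 1) := Nat.lt_pow_succ_log_self (by norm_num) _
    have h3 : Nat.log 2 (f z) < I := by
      by_contra hcon
      push Not at hcon
      have := Nat.pow_le_pow_right (show 0 < 2 by norm_num) hcon
      have := hI z
      omega
    have h4 : z ∈ lev f X (Nat.log 2 (f z)) :=
      mem_filter.2 ⟨hX z h.ne', h1, h2⟩
    have h5 := Finset.single_le_sum (f := fun i => 2 ^ (i + 1) * (if z ∈ lev f X i then 1 else 0))
      (fun i _ => Nat.zero_le _) (mem_range.2 h3)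
    simp only [h4, if_true, mul_one] at h5
    omega

/-- number of representations as a sum -/
def rs (s t : Finset G) (z : G) : ℕ := ((s ×ˢ t).filter fun x => x.1 + x.2 = z).card

theorem energy_rs (s t Z : Finset G) (hZ : s + t ⊆ Z) :
    s.addEnergy t = ∑ z ∈ Z, rs s t z ^ 2 := by
  rw [Finset.addEnergy_eq_sum_sq']
  rw [Finset.sum_subset hZ]
  · rfl
  · intro z _ hz
    have : ((s ×ˢ t).filter fun x => x.1 + x.2 = z) = ∅ := by
      rw [Finset.filter_eq_empty_iff]
      rintro ⟨a, b⟩ hab h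
      rw [mem_product] at hab
      exact hz (h ▸ Finset.add_mem_add hab.1 hab.2)
    rw [this]
    simp

theorem rs_eq (s t X : Finset G) (hs : s ⊆ X) (z : G) :
    rs s t z = ∑ w ∈ X, (if w ∈ s then 1 else 0) * (if z - w ∈ t then 1 else 0) := by
  unfold rs
  rw [Finset.card_filter, Finset.sum_product]
  have h1 : ∀ w ∈ s, ∑ y ∈ t, (if w + y = z then 1 else 0) = if z - w ∈ t then 1 else 0 := by
    intro w _
    have h2 : ∀ y, (w + y = z) = (z - w = y) := fun y => by
      exact propext ⟨fun h => by rw [← h, add_sub_cancel_left], fun h => by rw [← h, add_sub_cancel]⟩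
    simp only [h2]
    rw [Finset.sum_ite_eq]
  rw [Finset.sum_congr rfl h1]
  have h2 : ∀ w, (if w ∈ s then 1 else 0) * (if z - w ∈ t then 1 else 0) =
      if w ∈ s then (if z - w ∈ t then 1 else 0) else 0 := by
    intro w; split_ifs <;> simp
  simp only [h2]
  rw [Finset.sum_ite_mem, Finset.inter_eq_right.2 hs]

/-- The square of the `L^2` norm of `f * f` is controlled by the additive energy of a level set. -/
theorem exists_level (f : G → ℕ) (X : Finset G) (I : ℕ) (hI0 : 0 < I)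
    (hX : ∀ z, f z ≠ 0 → z ∈ X) (hI : ∀ z, f z < 2 ^ I) :
    ∃ i < I, ∑ z ∈ X + X, (∑ w ∈ X, f w * f (z - w)) ^ 2 ≤
      I ^ 4 * (2 ^ (4 * (i + 1)) * (lev f X i).addEnergy (lev f X i)) := by
  set P : ℕ → Finset G := lev f X with hP
  have hPX : ∀ i, P i ⊆ X := fun i => Finset.filter_subset _ _
  obtain ⟨i, hi, hmax⟩ := Finset.exists_max_image (range I)
    (fun i => 2 ^ (4 * (i + 1)) * (P i).addEnergy (P i)) ⟨0, mem_range.2 hI0⟩
  refine ⟨i, mem_range.1 hi, ?_⟩
  set Y : ℕ := 2 ^ (4 * (i + 1)) * (P i).addEnergy (P i) with hY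
  have hpair : ∀ a ∈ range I, ∀ b ∈ range I,
      (2 ^ (a + 1) * 2 ^ (b + 1)) ^ 2 * (P a).addEnergy (P b) ≤ Y := by
    intro a ha b hb
    have h1 : ((2 ^ (a + 1) * 2 ^ (b + 1)) ^ 2 * (P a).addEnergy (P b)) ^ 2 ≤ Y ^ 2 := by
      calc ((2 ^ (a + 1) * 2 ^ (b + 1)) ^ 2 * (P a).addEnergy (P b)) ^ 2
          = (2 ^ (4 * (a + 1)) * 2 ^ (4 * (b + 1))) * ((P a).addEnergy (P b)) ^ 2 := by ring
        _ ≤ (2 ^ (4 * (a + 1)) * 2 ^ (4 * (b + 1))) *
            ((P a).addEnergy (P a) * (P b).addEnergy (P b)) :=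
            Nat.mul_le_mul_left _ (energy_cs _ _)
        _ = (2 ^ (4 * (a + 1)) * (P a).addEnergy (P a)) *
            (2 ^ (4 * (b + 1)) * (P b).addEnergy (P b)) := by ring
        _ ≤ Y * Y := Nat.mul_le_mul (hmax a ha) (hmax b hb)
        _ = Y ^ 2 := by ring
    exact (Nat.pow_le_pow_iff_left (by norm_num)).1 h1
  have hconv : ∀ z, ∑ w ∈ X, f w * f (z - w) ≤
      ∑ a ∈ range I, ∑ b ∈ range I, (2 ^ (a + 1) * 2 ^ (b + 1)) * rs (P a) (P b) z := by
    intro z
    calc ∑ w ∈ X, f w * f (z - w)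
        ≤ ∑ w ∈ X, (∑ a ∈ range I, 2 ^ (a + 1) * (if w ∈ P a then 1 else 0)) *
          (∑ b ∈ range I, 2 ^ (b + 1) * (if z - w ∈ P b then 1 else 0)) := by
          refine Finset.sum_le_sum fun w _ => ?_
          exact Nat.mul_le_mul (le_sum_lev f X I hX hI w) (le_sum_lev f X I hX hI (z - w))
      _ = ∑ w ∈ X, ∑ a ∈ range I, ∑ b ∈ range I, (2 ^ (a + 1) * 2 ^ (b + 1)) *
          ((if w ∈ P a then 1 else 0) * (if z - w ∈ P b then 1 else 0)) := by
          refine Finset.sum_congr rfl fun w _ => ?_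
          rw [Finset.sum_mul_sum]
          refine Finset.sum_congr rfl fun a _ => Finset.sum_congr rfl fun b _ => ?_
          ring
      _ = _ := by
          rw [Finset.sum_comm]
          refine Finset.sum_congr rfl fun a _ => ?_
          rw [Finset.sum_comm]
          refine Finset.sum_congr rfl fun b _ => ?_
          rw [rs_eq (P a) (P b) X (hPX a) z, Finset.mul_sum]
  calc ∑ z ∈ X + X, (∑ w ∈ X, f w * f (z - w)) ^ 2
      ≤ ∑ z ∈ X + X, (∑ a ∈ range I, ∑ b ∈ range I,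
          (2 ^ (a + 1) * 2 ^ (b + 1)) * rs (P a) (P b) z) ^ 2 :=
        Finset.sum_le_sum fun z _ => Nat.pow_le_pow_left (hconv z) 2
    _ ≤ ∑ z ∈ X + X, I ^ 2 * ∑ a ∈ range I, ∑ b ∈ range I,
          ((2 ^ (a + 1) * 2 ^ (b + 1)) * rs (P a) (P b) z) ^ 2 := by
        refine Finset.sum_le_sum fun z _ => ?_
        rw [← Finset.sum_product' (range I) (range I)
          (fun a b => (2 ^ (a + 1) * 2 ^ (b + 1)) * rs (P a) (P b) z),
          ← Finset.sum_product' (range I) (range I)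
          (fun a b => ((2 ^ (a + 1) * 2 ^ (b + 1)) * rs (P a) (P b) z) ^ 2)]
        have h1 := sq_sum_le_card_mul_sum_sq (s := range I ×ˢ range I)
          (f := fun x => (((2 ^ (x.1 + 1) * 2 ^ (x.2 + 1)) * rs (P x.1) (P x.2) z : ℕ) : ℤ))
        rw [Finset.card_product, Finset.card_range] at h1
        have h2 : ((I * I : ℕ) : ℤ) = ((I ^ 2 : ℕ) : ℤ) := by rw [sq]
        rw [h2] at h1
        exact_mod_cast h1
    _ = I ^ 2 * ∑ a ∈ range I, ∑ b ∈ range I, (2 ^ (a + 1) * 2 ^ (b + 1)) ^ 2 *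
          (P a).addEnergy (P b) := by
        rw [← Finset.mul_sum]
        congr 1
        rw [Finset.sum_comm]
        refine Finset.sum_congr rfl fun a _ => ?_
        rw [Finset.sum_comm]
        refine Finset.sum_congr rfl fun b _ => ?_
        rw [energy_rs (P a) (P b) (X + X) (Finset.add_subset_add (hPX a) (hPX b)),
          Finset.mul_sum]
        refine Finset.sum_congr rfl fun z _ => ?_
        ring
    _ ≤ I ^ 2 * ∑ _a ∈ range I, ∑ _b ∈ range I, Y := by
        refine Nat.mul_le_mul_left _ ?_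
        exact Finset.sum_le_sum fun a ha => Finset.sum_le_sum fun b hb => hpair a ha b hb
    _ = I ^ 4 * Y := by
        simp only [Finset.sum_const, Finset.card_range, smul_eq_mul]
        ring

end Pool.Agent.L5helper30.LD
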