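import Pool.Agent.L5helper30.LD.Piece
import Pool.Agent.Y359.LE.Main

/-!
The decomposition of a finite set of nonzero integers.
-/

set_option autoImplicit false

namespace Pool.Agent.L5helper30.LD

open Finset Pool.Agent.H384R3.SPk Pool.Agent.Y849.LW
open scoped Pointwise

theorem exists_cond {k : ℕ} (hk : 2 ≤ k) : ∃ β : ℝ, Cond k 2 β := by
  have hk' : (2 : ℝ) ≤ k := by exact_mod_cast hk
  have h1 : (0 : ℝ) < 2 * k - 1 := by linarith
  have h2 : (1 : ℝ) / (2 * k - 1) < 1 := by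
    rw [div_lt_one h1]
    linarith
  have h3 : (1 : ℝ) < 2 - 1 / (2 * k - 1) := by linarith
  refine ⟨Real.log (2 * k - 1) / Real.log (2 - 1 / (2 * k - 1)), ?_⟩
  unfold Cond
  have e1 : ((2 : ℕ) : ℝ) - (((2 : ℕ) : ℝ) - 1) / (2 * k - 1) = 2 - 1 / (2 * k - 1) := by
    push_cast
    norm_num
  rw [e1, Real.rpow_def_of_pos (by linarith), mul_div_cancel₀, Real.exp_log h1]
  exact (Real.log_pos h3).ne'

/-- the trivial bound -/
theorem N_trivial {k : ℕ} (hk : 1 ≤ k) (A : Finset ℤ) (a : ℤ →₀ ℝ) (ha : a.support ⊆ A) :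
    N k a ≤ A.card * ∑ m ∈ A, a m ^ 2 := by
  have h1 := N_sum_le hk A fun m => Finsupp.single m (a m)
  have h2 : ∑ m ∈ A, Finsupp.single m (a m) = a := by
    rw [← Finsupp.sum_of_support_subset a ha (fun m t => Finsupp.single m t) (fun _ _ => by simp)]
    exact Finsupp.sum_single a
  rw [h2] at h1
  refine h1.trans (le_of_eq ?_)
  congr 1
  exact Finset.sum_congr rfl fun m _ => N_single_real k hk m (a m)

/-- the union of the pieces -/
theorem union_lambda {k : ℕ} (hk : 1 ≤ k) (A : Finset ℤ) (𝒟 : Finset (Finset GQ)) (T : ℝ)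
    (ch : ℤ → Finset GQ) (hch : ∀ m ∈ A, ch m ∈ 𝒟 ∧ phi m ∈ ch m)
    (h : ∀ D ∈ 𝒟, ∀ S ⊆ A, (∀ m ∈ S, phi m ∈ D) → ∀ a : ℤ →₀ ℝ, a.support ⊆ S →
      N k a ≤ T * ∑ m ∈ S, a m ^ 2) (a : ℤ →₀ ℝ) (ha : a.support ⊆ A) :
    N k a ≤ 𝒟.card * T * ∑ m ∈ A, a m ^ 2 := by
  classical
  have h1 := N_sum_le hk 𝒟 fun D => a.filter fun m => ch m = D
  have h2 : ∑ D ∈ 𝒟, a.filter (fun m => ch m = D) = a := by
    ext m
    rw [Finsupp.finsetSum_apply]
    by_cases hm : m ∈ A
    · rw [Finset.sum_eq_single (ch m)]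
      · rw [Finsupp.filter_apply, if_pos rfl]
      · intro D _ hD
        rw [Finsupp.filter_apply, if_neg fun h => hD h.symm]
      · intro h
        exact absurd (hch m hm).1 h
    · have h3 : a m = 0 := by
        by_contra h
        exact hm (ha (Finsupp.mem_support_iff.2 h))
      rw [h3]
      refine Finset.sum_eq_zero fun D _ => ?_
      rw [Finsupp.filter_apply]
      split_ifs
      · exact h3
      · rfl
  rw [h2] at h1
  refine h1.trans ?_
  rw [mul_assoc]
  refine mul_le_mul_of_nonneg_left ?_ (by positivity)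
  have h3 : ∀ D ∈ 𝒟, N k (a.filter fun m => ch m = D) ≤
      T * ∑ m ∈ A.filter (fun m => ch m = D), a m ^ 2 := by
    intro D hD
    refine (h D hD (A.filter fun m => ch m = D) (Finset.filter_subset _ _) ?_ _ ?_).trans
      (le_of_eq ?_)
    · intro m hm
      obtain ⟨hm1, hm2⟩ := mem_filter.1 hm
      rw [← hm2]
      exact (hch m hm1).2
    · intro m hm
      rw [Finsupp.mem_support_iff, Finsupp.filter_apply] at hm
      split_ifs at hm with h4
      · exact mem_filter.2 ⟨ha (Finsupp.mem_support_iff.2 hm), h4⟩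
      · exact absurd rfl hm
    · congr 1
      refine Finset.sum_congr rfl fun m hm => ?_
      rw [Finsupp.filter_apply, if_pos (mem_filter.1 hm).2]
  refine (Finset.sum_le_sum h3).trans (le_of_eq ?_)
  rw [← Finset.mul_sum]
  congr 1
  rw [Finset.sum_fiberwise_of_maps_to (fun m hm => (hch m hm).1)]

/-- **The multiplicative decomposition.** -/
theorem mirrored (k : ℕ) (hk : 2 ≤ k) (ε b : ℝ) (hε : 0 < ε) (hb : 0 < b) :
    ∃ M : ℕ, 1 ≤ M ∧ ∃ C : ℝ, 0 < C ∧ ∀ A : Finset ℤ, (0 : ℤ) ∉ A → ∃ B ⊆ A,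
      (∀ m : ℕ, M ≤ m → (mulEn B m : ℝ) ≤ (A.card : ℝ) ^ (2 * (m : ℝ) - b)) ∧
      ∀ a : ℤ →₀ ℝ, a.support ⊆ A \ B → N k a ≤ C * (A.card : ℝ) ^ ε * ∑ m ∈ A \ B, a m ^ 2 := by
  classical
  have hk1 : 1 ≤ k := by omega
  obtain ⟨β, hβ⟩ := exists_cond hk
  have hβ0 : 0 < β := hβ.pos hk le_rfl
  set η : ℝ := ε / (2 + 2 * β) with hη
  have hη0 : 0 < η := by positivity
  obtain ⟨M, hM, t₀, ht₀, hdec⟩ := decomp (G := GQ) b η hb hη0
  refine ⟨M, hM, 4 * 2 ^ β + Real.exp t₀, by positivity, ?_⟩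
  intro A h0
  by_cases hsmall : Real.log A.card < t₀
  · refine ⟨∅, Finset.empty_subset _, ?_, ?_⟩
    · intro m hm
      have h1 : mulEn ∅ m = 0 := by
        unfold mulEn
        rw [Finset.card_eq_zero, Finset.filter_eq_empty_iff]
        intro p hp
        rw [mem_product, Fintype.mem_piFinset] at hp
        exact absurd (hp.1 ⟨0, by omega⟩) (Finset.notMem_empty _)
      rw [h1]
      push_cast
      exact Real.rpow_nonneg (Nat.cast_nonneg _) _
    · intro a ha
      rw [Finset.sdiff_empty] at ha ⊢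
      refine (N_trivial hk1 A a ha).trans ?_
      refine mul_le_mul_of_nonneg_right ?_ (Finset.sum_nonneg fun _ _ => sq_nonneg _)
      rcases A.eq_empty_or_nonempty with hA | hA
      · rw [hA]
        simp only [Finset.card_empty, Nat.cast_zero]
        positivity
      · have cA : (1 : ℝ) ≤ A.card := by exact_mod_cast hA.card_pos
        have h1 : (A.card : ℝ) ≤ Real.exp t₀ := by
          rw [← Real.log_le_iff_le_exp (by linarith)]
          exact hsmall.le
        have h2 : (1 : ℝ) ≤ (A.card : ℝ) ^ ε := Real.one_le_rpow cA hε.le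
        have h3 : (0 : ℝ) ≤ 4 * 2 ^ β := by positivity
        nlinarith [Real.exp_pos t₀]
  push Not at hsmall
  have hAne : A.Nonempty := by
    by_contra h
    rw [Finset.not_nonempty_iff_eq_empty] at h
    rw [h] at hsmall
    simp at hsmall
    linarith
  have cA : (1 : ℝ) ≤ A.card := by exact_mod_cast hAne.card_pos
  have hne : ∀ a ∈ A, a ≠ 0 := fun a ha h => h0 (h ▸ ha)
  have hcard : (A.image phi).card = A.card := by
    refine Finset.card_image_of_injOn fun x hx y hy hxy => ?_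
    exact phi_inj (hne x hx) (hne y hy) hxy
  obtain ⟨B', hB'A, hen, 𝒟, h𝒟1, h𝒟2, h𝒟3⟩ := hdec (A.image phi) (by rw [hcard]; exact hsmall)
  rw [hcard] at hen h𝒟2 h𝒟3
  set B : Finset ℤ := A.filter fun a => phi a ∈ B' with hB
  refine ⟨B, Finset.filter_subset _ _, ?_, ?_⟩
  · intro m hm
    refine le_trans ?_ (hen m hm)
    exact_mod_cast mulEn_le B (fun h => h0 (mem_filter.1 h).1) B'
      (fun a ha => (mem_filter.1 ha).2) m
  · have hex : ∀ m ∈ A \ B, ∃ D ∈ 𝒟, phi m ∈ D := by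
      intro m hm
      obtain ⟨hm1, hm2⟩ := mem_sdiff.1 hm
      have h1 : phi m ∈ (A.image phi) \ B' := by
        rw [mem_sdiff]
        refine ⟨mem_image_of_mem _ hm1, fun h => hm2 ?_⟩
        rw [hB, mem_filter]
        exact ⟨hm1, h⟩
      obtain ⟨D, hD, hmD⟩ := mem_biUnion.1 (h𝒟1 h1)
      exact ⟨D, hD, hmD⟩
    have hch : ∃ ch : ℤ → Finset GQ, ∀ m ∈ A \ B, ch m ∈ 𝒟 ∧ phi m ∈ ch m := by
      refine ⟨fun m => if h : m ∈ A \ B then (hex m h).choose else ∅, fun m hm => ?_⟩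
      simp only [dif_pos hm]
      exact (hex m hm).choose_spec
    obtain ⟨ch, hch⟩ := hch
    set R : ℝ := (A.card : ℝ) ^ η with hR
    have hR1 : 1 ≤ R := Real.one_le_rpow cA hη0.le
    intro a ha
    have h1 := union_lambda hk1 (A \ B) 𝒟 (4 * R * (2 * R ^ 2) ^ β) ch hch (by
      intro D hD S hS hSD a' ha'
      obtain ⟨P, hP, hP1, hP2⟩ := h𝒟3 D hD
      exact piece_lambda hk hβ S (fun h => h0 (mem_sdiff.1 (hS h)).1) D P hSD hP hR1 hP1 hP2 a'
        ha') a ha
    refine h1.trans (mul_le_mul_of_nonneg_right ?_ (Finset.sum_nonneg fun _ _ => sq_nonneg _))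
    have hR0 : 0 < R := by linarith
    have e1 : (2 * R ^ 2) ^ β = 2 ^ β * R ^ (2 * β) := by
      rw [Real.mul_rpow (by norm_num) (by positivity), ← Real.rpow_natCast R 2,
        ← Real.rpow_mul hR0.le]
      push_cast
      rfl
    have e2 : R * (R * R ^ (2 * β)) = (A.card : ℝ) ^ ε := by
      have e3 : R * (R * R ^ (2 * β)) = R ^ (2 + 2 * β) := by
        rw [Real.rpow_add hR0]
        have : R ^ (2 : ℝ) = R * R := by
          rw [Real.rpow_two]
          ring
        rw [this]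
        ring
      rw [e3, hR, ← Real.rpow_mul (by linarith)]
      congr 1
      rw [hη]
      field_simp
    calc (𝒟.card : ℝ) * (4 * R * (2 * R ^ 2) ^ β) ≤ R * (4 * R * (2 * R ^ 2) ^ β) :=
          mul_le_mul_of_nonneg_right h𝒟2 (by positivity)
      _ = 4 * 2 ^ β * (R * (R * R ^ (2 * β))) := by rw [e1]; ring
      _ = 4 * 2 ^ β * (A.card : ℝ) ^ ε := by rw [e2]
      _ ≤ (4 * 2 ^ β + Real.exp t₀) * (A.card : ℝ) ^ ε := by
          refine mul_le_mul_of_nonneg_right ?_ (by positivity)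
          have := Real.exp_pos t₀
          linarith

open Pool.Agent.Y359 in
theorem En_mono {B B' : Finset ℤ} (h : B ⊆ B') (m : ℕ) : LE.En B m ≤ LE.En B' m := by
  unfold LE.En
  refine card_le_card (Finset.filter_subset_filter _ ?_)
  exact Finset.product_subset_product (Fintype.piFinset_subset _ _ fun _ => h)
    (Fintype.piFinset_subset _ _ fun _ => h)

/-- **The trichotomy.** -/
theorem trichotomy (k : ℕ) (hk : 2 ≤ k) (ε b : ℝ) (hε : 0 < ε) (hb : 0 < b) :
    ∃ M : ℕ, 1 ≤ M ∧ ∃ C : ℝ, 0 < C ∧ ∀ A : Finset ℤ, (0 : ℤ) ∉ A →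
      ∃ A₀ A₁ A₂ : Finset ℤ, A₀ ∪ A₁ ∪ A₂ = A ∧ Disjoint A₀ A₁ ∧ Disjoint A₀ A₂ ∧
        Disjoint A₁ A₂ ∧
      (∀ m : ℕ, M ≤ m →
        ((((Fintype.piFinset fun _ : Fin m => A₀) ×ˢ
          (Fintype.piFinset fun _ : Fin m => A₀)).filter
            fun p => ∑ i, p.1 i = ∑ i, p.2 i).card : ℝ) ≤ (A.card : ℝ) ^ (2 * (m : ℝ) - b) ∧
        ((((Fintype.piFinset fun _ : Fin m => A₀) ×ˢ
          (Fintype.piFinset fun _ : Fin m => A₀)).filter
            fun p => ∏ i, p.1 i = ∏ i, p.2 i).card : ℝ) ≤ (A.card : ℝ) ^ (2 * (m : ℝ) - b)) ∧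
      (∀ u : ℤ, (((Fintype.piFinset fun _ : Fin k => A₁).filter
          fun f => ∏ i, f i = u).card : ℝ) ≤ C * (A.card : ℝ) ^ ε) ∧
      (∀ c : ℤ → ℂ, ∫ x in (0:ℝ)..1,
        ‖∑ m ∈ A₂, c m * Complex.exp (2 * Real.pi * Complex.I * m * x)‖ ^ (2 * k) ≤
          (C * (A.card : ℝ) ^ ε * ∑ m ∈ A₂, ‖c m‖ ^ 2) ^ k) ∧
      (∀ X : Fin k → Finset ℤ, (∀ i, X i ⊆ A₂) → ∀ l : Fin k → ℤ, (∀ i, l i ≠ 0) →
        ∏ i, ((X i).card : ℝ) ≤ (C * (A.card : ℝ) ^ ε) ^ k *
          (((Fintype.piFinset X).image fun f => ∑ i, l i * f i).card : ℝ)) := by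
  classical
  have hk1 : 1 ≤ k := by omega
  obtain ⟨M₁, hM₁, C₁, hC₁, h1⟩ := Pool.Agent.Y359.LE.decomposition k hk1 ε b hε hb
  obtain ⟨M₂, hM₂, C₂, hC₂, h2⟩ := mirrored k hk ε b hε hb
  refine ⟨max (max M₁ M₂) ⌈b⌉₊, le_trans hM₁ ((le_max_left _ _).trans (le_max_left _ _)),
    C₁ + C₂, by positivity, ?_⟩
  intro A h0
  obtain ⟨B, hBA, hB1, hB2⟩ := h1 A
  obtain ⟨B', hB'B, hB'1, hB'2⟩ := h2 B fun h => h0 (hBA h)
  have hBc : (B.card : ℝ) ≤ A.card := by exact_mod_cast card_le_card hBA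
  refine ⟨B', A \ B, B \ B', ?_, ?_, ?_, ?_, ?_, ?_, ?_, ?_⟩
  · ext x
    simp only [mem_union, mem_sdiff]
    constructor
    · rintro ((h | h) | h)
      · exact hBA (hB'B h)
      · exact h.1
      · exact hBA h.1
    · intro h
      by_cases h3 : x ∈ B
      · by_cases h4 : x ∈ B'
        · exact Or.inl (Or.inl h4)
        · exact Or.inr ⟨h3, h4⟩
      · exact Or.inl (Or.inr ⟨h, h3⟩)
  · rw [Finset.disjoint_left]
    intro x hx hx'
    exact (mem_sdiff.1 hx').2 (hB'B hx)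
  · rw [Finset.disjoint_left]
    intro x hx hx'
    exact (mem_sdiff.1 hx').2 hx
  · rw [Finset.disjoint_left]
    intro x hx hx'
    exact (mem_sdiff.1 hx).2 (mem_sdiff.1 hx').1
  · intro m hm
    have hm12 : max M₁ M₂ ≤ m := (le_max_left _ _).trans hm
    constructor
    · refine le_trans ?_ (hB1 m ((le_max_left _ _).trans hm12))
      exact_mod_cast En_mono hB'B m
    · refine (hB'1 m ((le_max_right _ _).trans hm12)).trans ?_
      have hbm : b ≤ m := (Nat.le_ceil b).trans (by exact_mod_cast (le_max_right _ _).trans hm)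
      exact Real.rpow_le_rpow (by positivity) hBc (by linarith [(Nat.cast_nonneg m : (0:ℝ) ≤ m)])
  · intro u
    by_cases hu : u = 0
    · have h3 : ((Fintype.piFinset fun _ : Fin k => A \ B).filter fun f => ∏ i, f i = u) = ∅ := by
        rw [Finset.filter_eq_empty_iff]
        intro f hf h4
        rw [Fintype.mem_piFinset] at hf
        rw [hu, Finset.prod_eq_zero_iff] at h4
        obtain ⟨i, _, hi⟩ := h4
        exact h0 (hi ▸ (mem_sdiff.1 (hf i)).1)
      rw [h3]
      simp only [Finset.card_empty, Nat.cast_zero]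
      positivity
    · refine (hB2 u hu).trans ?_
      refine mul_le_mul_of_nonneg_right (by linarith) (by positivity)
  · intro c
    refine (majorant k (B \ B') c).trans ?_
    refine (int_form hk1 hB'2 fun m => ‖c m‖).trans ?_
    refine pow_le_pow_left₀ ?_ ?_ k
    · exact mul_nonneg (by positivity) (Finset.sum_nonneg fun _ _ => sq_nonneg _)
    · refine mul_le_mul_of_nonneg_right ?_ (Finset.sum_nonneg fun _ _ => sq_nonneg _)
      refine mul_le_mul (by linarith) (Real.rpow_le_rpow (by positivity) hBc hε.le)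
        (by positivity) (by positivity)
  · intro X hX l hl
    have h3 := lam_sum hk1 (fun _ => B \ B') (fun _ => C₂ * (B.card : ℝ) ^ ε)
      (fun i => by positivity) (fun _ => hB'2) l hl X hX
    refine h3.trans ?_
    unfold dilsum
    refine mul_le_mul_of_nonneg_right ?_ (by positivity)
    rw [Finset.prod_const, Finset.card_univ, Fintype.card_fin]
    refine pow_le_pow_left₀ (by positivity) ?_ k
    exact mul_le_mul (by linarith) (Real.rpow_le_rpow (by positivity) hBc hε.le)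
        (by positivity) (by positivity)

end Pool.Agent.L5helper30.LD
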