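import Pool.Agent.L5helper30.LD.Extract

/-!
The low energy decomposition.
-/

set_option autoImplicit false

namespace Pool.Agent.L5helper30.LD

open Finset
open scoped Pointwise

variable {G : Type} [AddCommGroup G] [DecidableEq G]

theorem En_young' (A : Finset G) (n m : ℕ) : En A (n + m) ≤ A.card ^ (2 * n) * En A m := by
  set X := sm A n with hX
  set Z := sm A n + sm A m with hZ
  rw [En_eq A (n + m) Z (sm_add A n m)]
  have h1 : ∀ z, (rep A (n + m) z) ^ 2 ≤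
      A.card ^ n * ∑ w ∈ X, rep A n w * rep A m (z - w) ^ 2 := by
    intro z
    rw [rep_add A n m X (Finset.Subset.refl _), ← rep_total A n X (Finset.Subset.refl _)]
    apply sum_sq_le_sum_mul_sum_of_sq_eq_mul
    · intro w _; exact Nat.zero_le _
    · intro w _; exact Nat.zero_le _
    · intro w _; ring
  calc ∑ z ∈ Z, (rep A (n + m) z) ^ 2
      ≤ ∑ z ∈ Z, A.card ^ n * ∑ w ∈ X, rep A n w * rep A m (z - w) ^ 2 :=
        Finset.sum_le_sum fun z _ => h1 z
    _ = A.card ^ n * ∑ w ∈ X, rep A n w * ∑ z ∈ Z, rep A m (z - w) ^ 2 := by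
        rw [← Finset.mul_sum, Finset.sum_comm]
        congr 1
        refine Finset.sum_congr rfl fun w _ => ?_
        rw [Finset.mul_sum]
    _ = A.card ^ n * ∑ w ∈ X, rep A n w * En A m := by
        congr 1
        refine Finset.sum_congr rfl fun w hw => ?_
        congr 1
        rw [En_eq A m (Z.image fun z => z - w), Finset.sum_image]
        · intro a _ b _ hab
          exact sub_left_injective hab
        · intro y hy
          exact mem_image.2 ⟨w + y, Finset.add_mem_add hw hy, by rw [add_sub_cancel_left]⟩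
    _ = A.card ^ (2 * n) * En A m := by
        rw [← Finset.sum_mul, rep_total A n X (Finset.Subset.refl _)]
        ring

theorem En_le (A : Finset G) (m : ℕ) : En A m ≤ A.card ^ (2 * m) := by
  unfold En
  refine (Finset.card_filter_le _ _).trans ?_
  rw [Finset.card_product, Fintype.card_piFinset]
  simp only [Finset.prod_const, Finset.card_univ, Fintype.card_fin]
  rw [← pow_add, two_mul]

theorem En_pos {A : Finset G} (hA : A.Nonempty) (m : ℕ) : 0 < En A m := by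
  obtain ⟨a, ha⟩ := hA
  unfold En
  refine Finset.card_pos.2 ⟨(fun _ => a, fun _ => a), ?_⟩
  rw [mem_filter, mem_product, Fintype.mem_piFinset]
  exact ⟨⟨fun _ => ha, fun _ => ha⟩, rfl⟩

/-- a slowly growing step -/
theorem exists_slow (B : Finset G) (J : ℕ) (hJ : 1 ≤ J) (κ : ℝ) (hκ : 1 ≤ κ)
    (h : (B.card : ℝ) ^ (2 * 2 ^ J) ≤ κ ^ J * En B (2 ^ J)) (hB : B.Nonempty) :
    ∃ j < J, (B.card : ℝ) ^ (2 * 2 ^ j) * En B (2 ^ j) ≤ κ * En B (2 ^ j + 2 ^ j) := by
  by_contra hcon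
  push Not at hcon
  have hB1 : (1 : ℝ) ≤ B.card := by exact_mod_cast hB.card_pos
  have hind : ∀ j ≤ J, κ ^ j * En B (2 ^ j) * B.card ≤ (B.card : ℝ) ^ (2 * 2 ^ j) ∧
      (1 ≤ j → κ ^ j * En B (2 ^ j) * B.card < (B.card : ℝ) ^ (2 * 2 ^ j)) := by
    intro j
    induction j with
    | zero =>
      intro _
      refine ⟨?_, fun h => absurd h (by norm_num)⟩
      rw [show (2 : ℕ) ^ 0 = 1 from rfl, En_one, pow_zero]
      simp only [one_mul, mul_one]
      rw [pow_two]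
    | succ j ih =>
      intro hj
      have h1 := hcon j (by omega)
      have h2 := (ih (by omega)).1
      have h3 : κ ^ (j + 1) * En B (2 ^ (j + 1)) * B.card < (B.card : ℝ) ^ (2 * 2 ^ (j + 1)) := by
        have e1 : 2 ^ (j + 1) = 2 ^ j + 2 ^ j := by rw [pow_succ]; ring
        have hκj : 0 < κ ^ j * (B.card : ℝ) := by positivity
        calc κ ^ (j + 1) * En B (2 ^ (j + 1)) * B.card
            = (κ ^ j * B.card) * (κ * En B (2 ^ j + 2 ^ j)) := by rw [e1]; ring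
          _ < (κ ^ j * B.card) * ((B.card : ℝ) ^ (2 * 2 ^ j) * En B (2 ^ j)) :=
              mul_lt_mul_of_pos_left h1 hκj
          _ = (κ ^ j * En B (2 ^ j) * B.card) * (B.card : ℝ) ^ (2 * 2 ^ j) := by ring
          _ ≤ (B.card : ℝ) ^ (2 * 2 ^ j) * (B.card : ℝ) ^ (2 * 2 ^ j) :=
              mul_le_mul_of_nonneg_right h2 (by positivity)
          _ = (B.card : ℝ) ^ (2 * 2 ^ (j + 1)) := by rw [← pow_add, e1]; ring
      exact ⟨h3.le, fun _ => h3⟩
  have h1 := (hind J le_rfl).2 hJ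
  have h2 : κ ^ J * En B (2 ^ J) ≤ κ ^ J * En B (2 ^ J) * B.card :=
    le_mul_of_one_le_right (by positivity) hB1
  linarith

theorem normalised_mono (B : Finset G) (j J : ℕ) (hj : j ≤ J) :
    (En B (2 ^ J) : ℝ) * (B.card : ℝ) ^ (2 * 2 ^ j) ≤
      (B.card : ℝ) ^ (2 * 2 ^ J) * En B (2 ^ j) := by
  obtain ⟨d, rfl⟩ := Nat.exists_eq_add_of_le hj
  have hle : 2 ^ j ≤ 2 ^ (j + d) := Nat.pow_le_pow_right (by norm_num) (by omega)
  obtain ⟨n, hn⟩ := Nat.exists_eq_add_of_le' hle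
  have h1 := En_young' B n (2 ^ j)
  rw [← hn] at h1
  have h2 : (En B (2 ^ (j + d)) : ℝ) ≤ (B.card : ℝ) ^ (2 * n) * En B (2 ^ j) := by
    exact_mod_cast h1
  calc (En B (2 ^ (j + d)) : ℝ) * (B.card : ℝ) ^ (2 * 2 ^ j)
      ≤ ((B.card : ℝ) ^ (2 * n) * En B (2 ^ j)) * (B.card : ℝ) ^ (2 * 2 ^ j) :=
        mul_le_mul_of_nonneg_right h2 (by positivity)
    _ = (B.card : ℝ) ^ (2 * n + 2 * 2 ^ j) * En B (2 ^ j) := by rw [pow_add]; ring
    _ = _ := by
        have e : 2 * n + 2 * 2 ^ j = 2 * 2 ^ (j + d) := by rw [hn]; ring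
        rw [e]

/-- the properties of the pieces -/
def Piece (K : ℝ) (D : Finset G) : Prop :=
  ∃ P : Finset G, P.Nonempty ∧ ((D + P).card : ℝ) ≤ 2 ^ 22 * K ^ 10 * P.card ∧
    ((P - P).card : ℝ) ≤ 2 ^ 22 * K ^ 10 * P.card

theorem extract (B : Finset G) (hB : B.Nonempty) (J I : ℕ) (hJ : 1 ≤ J)
    (hI : B.card ^ (2 ^ J) < 2 ^ I) (κ K : ℝ) (hκ : 1 ≤ κ) (hK : K = κ * (2 * I) ^ 4)
    (h : (B.card : ℝ) ^ (2 * 2 ^ J) ≤ κ ^ J * En B (2 ^ J)) :
    ∃ D ⊆ B, (B.card : ℝ) ≤ 8 * K ^ 2 * D.card ∧ Piece K D := by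
  obtain ⟨j, hj, hslow⟩ := exists_slow B J hJ κ hκ h hB
  obtain ⟨n, hn⟩ : ∃ n, 2 ^ j = n + 1 := ⟨2 ^ j - 1, by have := Nat.one_le_two_pow (n := j); omega⟩
  have hBc : 1 ≤ B.card := hB.card_pos
  have hI' : B.card ^ (n + 1) < 2 ^ I := by
    refine lt_of_le_of_lt ?_ hI
    rw [← hn]
    exact Nat.pow_le_pow_right hBc (Nat.pow_le_pow_right (by norm_num) hj.le)
  rw [hn] at hslow
  obtain ⟨D, hDB, P, hP, hcard, hsum, hPc⟩ := extract_step B hB n I hI' κ K hκ hK hslow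
  exact ⟨D, hDB, hcard, P, hP, hsum, hPc⟩

/-- the iteration -/
theorem iterate (A : Finset G) (Q : Finset G → Prop) (Fi : Finset G → Prop) (s : ℝ) (hs : 0 < s)
    (hstep : ∀ B ⊆ A, ¬ Fi B → ∃ D ⊆ B, Q D ∧ s ≤ D.card) :
    ∀ n : ℕ, ∀ B ⊆ A, B.card = n → ∃ B' ⊆ B, Fi B' ∧ ∃ 𝒟 : Finset (Finset G),
      (∀ D ∈ 𝒟, Q D) ∧ B \ B' ⊆ 𝒟.biUnion id ∧ s * 𝒟.card ≤ B.card := by
  classical
  intro n
  induction n using Nat.strong_induction_on with
  | _ n ih =>
  intro B hBA hn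
  by_cases hF : Fi B
  · refine ⟨B, Finset.Subset.refl _, hF, ∅, fun D hD => absurd hD (Finset.notMem_empty D), ?_, ?_⟩
    · rw [sdiff_self]; exact Finset.empty_subset _
    · simp
  obtain ⟨D, hDB, hQ, hsD⟩ := hstep B hBA hF
  have hD0 : 0 < D.card := by
    have : (0 : ℝ) < D.card := by linarith
    exact_mod_cast this
  have hcard : (B \ D).card + D.card = B.card := Finset.card_sdiff_add_card_eq_card hDB
  obtain ⟨B', hB', hF', 𝒟, h1, h2, h3⟩ := ih (B \ D).card (by omega) (B \ D)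
    (Finset.sdiff_subset.trans hBA) rfl
  refine ⟨B', hB'.trans Finset.sdiff_subset, hF', insert D 𝒟, ?_, ?_, ?_⟩
  · intro D' hD'
    rcases Finset.mem_insert.1 hD' with rfl | h
    · exact hQ
    · exact h1 D' h
  · intro z hz
    obtain ⟨hz1, hz2⟩ := Finset.mem_sdiff.1 hz
    rw [Finset.biUnion_insert, Finset.mem_union]
    by_cases hzD : z ∈ D
    · exact Or.inl hzD
    · exact Or.inr (h2 (Finset.mem_sdiff.2 ⟨Finset.mem_sdiff.2 ⟨hz1, hzD⟩, hz2⟩))
  · have h4 : ((insert D 𝒟).card : ℝ) ≤ 𝒟.card + 1 := by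
      exact_mod_cast Finset.card_insert_le D 𝒟
    have h5 : ((B \ D).card : ℝ) + D.card = B.card := by exact_mod_cast hcard
    have h6 := mul_le_mul_of_nonneg_left h4 hs.le
    linarith


end Pool.Agent.L5helper30.LD
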