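import Pool.Agent.L5helper30.LD.Iter

/-!
The low energy decomposition in an abelian group: few pieces, each with few sums with some set `P`
which has few differences.
-/

set_option autoImplicit false

namespace Pool.Agent.L5helper30.LD

open Finset
open scoped Pointwise

/-- `Nat.log 2 n ≤ 2 log n` -/
theorem natlog_le (n : ℕ) (hn : 1 ≤ n) : (Nat.log 2 n : ℝ) ≤ 2 * Real.log n := by
  have h1 : 2 ^ Nat.log 2 n ≤ n := Nat.pow_log_le_self 2 (by omega)
  have h2 : (2 : ℝ) ^ Nat.log 2 n ≤ n := by exact_mod_cast h1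
  have h3 := Real.log_le_log (by positivity) h2
  rw [Real.log_pow] at h3
  have h4 : (1 : ℝ) / 2 ≤ Real.log 2 := by
    have := Real.log_two_gt_d9
    linarith
  have h5 : (0 : ℝ) ≤ Nat.log 2 n := by positivity
  nlinarith

/-- for large `t` the polynomial terms are absorbed -/
theorem absorb (M η : ℝ) (hM : 1 ≤ M) (hη : 0 < η) :
    ∃ t₀ : ℝ, 1 ≤ t₀ ∧ ∀ t : ℝ, t₀ ≤ t → (2 * (M * (2 * t + 1))) ^ 4 ≤ Real.exp (η * t) ∧
      2 ^ 22 ≤ Real.exp (η * t) := by
  refine ⟨max 1 (max (155520 * M ^ 4 / η ^ 5) (2 ^ 22 / η)), le_max_left _ _, ?_⟩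
  intro t ht
  have ht1 : 1 ≤ t := (le_max_left _ _).trans ht
  have ht2 : 155520 * M ^ 4 / η ^ 5 ≤ t :=
    ((le_max_left _ _).trans (le_max_right _ _)).trans ht
  have ht3 : 2 ^ 22 / η ≤ t :=
    ((le_max_right _ _).trans (le_max_right _ _)).trans ht
  have hηt : 0 ≤ η * t := by positivity
  constructor
  · have h1 := Real.pow_div_factorial_le_exp (η * t) hηt 5
    refine le_trans ?_ h1
    have h2 : 2 * (M * (2 * t + 1)) ≤ 6 * M * t := by nlinarith
    have h3 : (2 * (M * (2 * t + 1))) ^ 4 ≤ (6 * M * t) ^ 4 :=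
      pow_le_pow_left₀ (by positivity) h2 4
    refine h3.trans ?_
    rw [div_le_iff₀ (by positivity)] at ht2
    have h4 : (Nat.factorial 5 : ℝ) = 120 := by norm_num [Nat.factorial]
    rw [h4, le_div_iff₀ (by norm_num)]
    have h5 : 155520 * M ^ 4 * t ^ 4 ≤ t * η ^ 5 * t ^ 4 :=
      mul_le_mul_of_nonneg_right ht2 (by positivity)
    calc (6 * M * t) ^ 4 * 120 = 155520 * M ^ 4 * t ^ 4 := by ring
      _ ≤ t * η ^ 5 * t ^ 4 := h5
      _ = (η * t) ^ 5 := by ring
  · rw [div_le_iff₀ hη] at ht3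
    have := Real.add_one_le_exp (η * t)
    linarith

/-- **The decomposition.** -/
theorem decomp {G : Type} [AddCommGroup G] [DecidableEq G] (b η₁ : ℝ) (hb : 0 < b)
    (hη₁ : 0 < η₁) :
    ∃ M : ℕ, 1 ≤ M ∧ ∃ t₀ : ℝ, 1 ≤ t₀ ∧ ∀ A : Finset G, t₀ ≤ Real.log A.card → ∃ B ⊆ A,
      (∀ m : ℕ, M ≤ m → (En B m : ℝ) ≤ (A.card : ℝ) ^ (2 * (m : ℝ) - b)) ∧
      ∃ 𝒟 : Finset (Finset G), A \ B ⊆ 𝒟.biUnion id ∧ (𝒟.card : ℝ) ≤ (A.card : ℝ) ^ η₁ ∧
        ∀ D ∈ 𝒟, ∃ P : Finset G, P.Nonempty ∧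
          ((D + P).card : ℝ) ≤ (A.card : ℝ) ^ η₁ * P.card ∧
          ((P - P).card : ℝ) ≤ (A.card : ℝ) ^ η₁ * P.card := by
  obtain ⟨J, hJ⟩ : ∃ J : ℕ, 21 * b / η₁ + 1 ≤ J := exists_nat_ge _
  have hJ1 : (1 : ℝ) ≤ J := by
    have : 0 ≤ 21 * b / η₁ := by positivity
    linarith
  have hJ1' : 1 ≤ J := by exact_mod_cast hJ1
  set M : ℕ := 2 ^ J with hM
  have hM1 : 1 ≤ M := Nat.one_le_two_pow
  have hMr : (1 : ℝ) ≤ M := by exact_mod_cast hM1
  have hJM : (J : ℝ) ≤ M := by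
    have : J < M := Nat.lt_two_pow_self
    exact_mod_cast this.le
  set η : ℝ := b / J with hη
  have hη0 : 0 < η := by positivity
  have hη21 : 21 * η ≤ η₁ := by
    have h1 : 21 * b / η₁ ≤ J := by linarith
    rw [div_le_iff₀ hη₁] at h1
    rw [hη, mul_div_assoc', div_le_iff₀ (by linarith)]
    linarith
  obtain ⟨t₀, ht₀, habs⟩ := absorb M η hMr hη0
  refine ⟨M, hM1, t₀, ht₀, ?_⟩
  intro A hsmall
  set ℓ : ℝ := Real.log A.card with hℓ
  have hℓ1 : 1 ≤ ℓ := ht₀.trans hsmall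
  have hAne : A.Nonempty := by
    by_contra h
    rw [Finset.not_nonempty_iff_eq_empty] at h
    rw [hℓ, h] at hℓ1
    simp at hℓ1
    linarith
  have cA : (1 : ℝ) ≤ A.card := by exact_mod_cast hAne.card_pos
  have cA0 : (0 : ℝ) < A.card := by linarith
  have hpow : ∀ x : ℝ, (A.card : ℝ) ^ x = Real.exp (x * ℓ) := fun x => by
    rw [Real.rpow_def_of_pos cA0]; congr 1; ring
  obtain ⟨habs1, habs2⟩ := habs ℓ hsmall
  set I : ℕ := M * (Nat.log 2 A.card + 1) with hI
  have hIr : (I : ℝ) ≤ M * (2 * ℓ + 1) := by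
    rw [hI]; push_cast
    have := natlog_le A.card hAne.card_pos
    exact mul_le_mul_of_nonneg_left (by linarith) (by linarith)
  have hIlt : ∀ B ⊆ A, B.card ^ (2 ^ J) < 2 ^ I := by
    intro B hB
    have h1 : B.card < 2 ^ (Nat.log 2 A.card + 1) :=
      lt_of_le_of_lt (Finset.card_le_card hB) (Nat.lt_pow_succ_log_self (by norm_num) _)
    rw [hI, mul_comm, pow_mul]
    exact Nat.pow_lt_pow_left h1 (by positivity)
  set κ : ℝ := Real.exp (η * ℓ) with hκ
  have hκ1 : 1 ≤ κ := Real.one_le_exp (by positivity)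
  set K : ℝ := κ * (2 * I) ^ 4 with hK
  have hI0 : (0 : ℝ) ≤ I := Nat.cast_nonneg _
  have hK2 : K ≤ Real.exp (2 * η * ℓ) := by
    have h1 : (2 * (I : ℝ)) ^ 4 ≤ Real.exp (η * ℓ) := by
      refine le_trans (pow_le_pow_left₀ (by positivity) ?_ 4) habs1
      linarith
    calc K ≤ κ * Real.exp (η * ℓ) := mul_le_mul_of_nonneg_left h1 (by linarith)
      _ = Real.exp (2 * η * ℓ) := by rw [hκ, ← Real.exp_add]; congr 1; ring
  have hIpos : 1 ≤ I := by
    rw [hI]
    exact Nat.mul_pos hM1 (Nat.succ_pos _)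
  have hI1 : (1 : ℝ) ≤ I := by exact_mod_cast hIpos
  have hK1 : 1 ≤ K := by
    have h1 : (1 : ℝ) ≤ (2 * I) ^ 4 := one_le_pow₀ (by linarith)
    rw [hK]
    nlinarith
  have hκJ : κ ^ J = Real.exp (b * ℓ) := by
    rw [hκ, ← Real.exp_nat_mul]
    congr 1
    rw [hη]
    field_simp
  -- the iteration
  set s : ℝ := Real.exp ((1 - η) * ℓ) / (8 * K ^ 2) with hs
  have hs0 : 0 < s := by positivity
  have hstep : ∀ B ⊆ A, ¬ (En B M : ℝ) ≤ (A.card : ℝ) ^ (2 * (M : ℝ) - b) →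
      ∃ D ⊆ B, Piece K D ∧ s ≤ D.card := by
    intro B hBA hF
    push Not at hF
    have hBne : B.Nonempty := by
      by_contra h
      rw [Finset.not_nonempty_iff_eq_empty] at h
      have h1 : En B M ≤ 0 := by
        rw [h]
        refine (En_le ∅ M).trans ?_
        have : 2 * M ≠ 0 := by omega
        simp [this]
      have h2 : (En B M : ℝ) ≤ 0 := by exact_mod_cast h1
      have h3 : 0 < (A.card : ℝ) ^ (2 * (M : ℝ) - b) := Real.rpow_pos_of_pos cA0 _
      linarith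
    have hBA' : (B.card : ℝ) ≤ A.card := by exact_mod_cast Finset.card_le_card hBA
    have cB : (0 : ℝ) < B.card := by exact_mod_cast hBne.card_pos
    have e1 : (A.card : ℝ) ^ (2 * M) = (A.card : ℝ) ^ (2 * (M : ℝ) - b) * κ ^ J := by
      rw [hκJ, ← Real.rpow_natCast, hpow, hpow, ← Real.exp_add]
      congr 1
      push_cast
      ring
    have h1 : (B.card : ℝ) ^ (2 * 2 ^ J) ≤ κ ^ J * En B (2 ^ J) := by
      calc (B.card : ℝ) ^ (2 * M) ≤ (A.card : ℝ) ^ (2 * M) := pow_le_pow_left₀ cB.le hBA' _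
        _ = κ ^ J * (A.card : ℝ) ^ (2 * (M : ℝ) - b) := by rw [e1]; ring
        _ ≤ κ ^ J * En B M := mul_le_mul_of_nonneg_left hF.le (by positivity)
    obtain ⟨D, hDB, hDc, hDP⟩ := extract B hBne J I hJ1' (hIlt B hBA) κ K hκ1 rfl h1
    refine ⟨D, hDB, hDP, ?_⟩
    -- `|B| ≥ |A| ^ (1 - η)`
    have h2 : Real.exp ((1 - η) * ℓ) ≤ B.card := by
      have h3 : (A.card : ℝ) ^ (2 * (M : ℝ) - b) ≤ (B.card : ℝ) ^ (2 * M) := by
        refine hF.le.trans ?_
        exact_mod_cast En_le B M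
      rw [hpow, ← Real.le_log_iff_exp_le (by positivity), Real.log_pow] at h3
      rw [← Real.le_log_iff_exp_le cB]
      push_cast at h3
      have h4 : b / (2 * M) ≤ η := by
        rw [hη]
        apply div_le_div_of_nonneg_left hb.le (by linarith)
        linarith
      have h5 : (1 - b / (2 * M)) * ℓ ≤ Real.log B.card := by
        have h6 : (2 * (M : ℝ)) * ((1 - b / (2 * M)) * ℓ) ≤ 2 * M * Real.log B.card := by
          refine le_trans (le_of_eq ?_) h3
          field_simp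
        exact le_of_mul_le_mul_left h6 (by linarith)
      have h6 : (1 - η) * ℓ ≤ (1 - b / (2 * M)) * ℓ :=
        mul_le_mul_of_nonneg_right (by linarith) (by linarith)
      linarith
    rw [hs, div_le_iff₀ (by positivity)]
    linarith
  obtain ⟨B, hBA, hFB, 𝒟, h𝒟1, h𝒟2, h𝒟3⟩ := iterate A (Piece K)
    (fun B => (En B M : ℝ) ≤ (A.card : ℝ) ^ (2 * (M : ℝ) - b)) s hs0 hstep A.card A
    (Finset.Subset.refl _) rfl
  refine ⟨B, hBA, ?_, 𝒟, h𝒟2, ?_, ?_⟩
  · -- higher energies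
    intro m hm
    obtain ⟨n, rfl⟩ := Nat.exists_eq_add_of_le' hm
    have h1 : (En B (n + M) : ℝ) ≤ (B.card : ℝ) ^ (2 * n) * En B M := by
      exact_mod_cast En_young' B n M
    have hBA' : (B.card : ℝ) ≤ A.card := by exact_mod_cast Finset.card_le_card hBA
    refine h1.trans ?_
    calc (B.card : ℝ) ^ (2 * n) * En B M
        ≤ (A.card : ℝ) ^ (2 * n) * (A.card : ℝ) ^ (2 * (M : ℝ) - b) :=
          mul_le_mul (pow_le_pow_left₀ (by positivity) hBA' _) hFB (by positivity) (by positivity)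
      _ = (A.card : ℝ) ^ (2 * ((n + M : ℕ) : ℝ) - b) := by
          rw [← Real.rpow_natCast, ← Real.rpow_add cA0]
          congr 1
          push_cast
          ring
  · -- the number of pieces
    have hcardD : (𝒟.card : ℝ) ≤ Real.exp (6 * η * ℓ) := by
      have h1 : s * 𝒟.card ≤ Real.exp ℓ := by
        rw [hℓ, Real.exp_log cA0]
        exact h𝒟3
      have h2 : (8 : ℝ) ≤ Real.exp (η * ℓ) := by
        refine le_trans ?_ habs2
        norm_num
      have h3 : (8 * K ^ 2) ≤ Real.exp (5 * η * ℓ) := by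
        calc 8 * K ^ 2 ≤ Real.exp (η * ℓ) * Real.exp (2 * η * ℓ) ^ 2 :=
              mul_le_mul h2 (pow_le_pow_left₀ (by linarith) hK2 2) (by positivity) (by positivity)
          _ = Real.exp (5 * η * ℓ) := by
              rw [← Real.exp_nat_mul, ← Real.exp_add]; congr 1; push_cast; ring
      have h4 : Real.exp ((1 - η) * ℓ) * 𝒟.card ≤
          Real.exp ((1 - η) * ℓ) * Real.exp (6 * η * ℓ) := by
        calc Real.exp ((1 - η) * ℓ) * 𝒟.card = (s * 𝒟.card) * (8 * K ^ 2) := by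
              rw [hs]; field_simp
          _ ≤ Real.exp ℓ * Real.exp (5 * η * ℓ) :=
              mul_le_mul h1 h3 (by positivity) (Real.exp_pos _).le
          _ = _ := by rw [← Real.exp_add, ← Real.exp_add]; congr 1; ring
      exact le_of_mul_le_mul_left h4 (Real.exp_pos _)
    rw [hpow]
    refine hcardD.trans (Real.exp_le_exp.2 ?_)
    exact mul_le_mul_of_nonneg_right (by linarith) (by linarith)
  · intro D hD
    obtain ⟨P, hP, h1, h2⟩ := h𝒟1 D hD
    have h3 : 2 ^ 22 * K ^ 10 ≤ (A.card : ℝ) ^ η₁ := by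
      rw [hpow]
      calc 2 ^ 22 * K ^ 10 ≤ Real.exp (η * ℓ) * Real.exp (2 * η * ℓ) ^ 10 :=
            mul_le_mul habs2 (pow_le_pow_left₀ (by linarith) hK2 10) (by positivity)
              (Real.exp_pos _).le
        _ = Real.exp (21 * η * ℓ) := by
            rw [← Real.exp_nat_mul, ← Real.exp_add]; congr 1; push_cast; ring
        _ ≤ Real.exp (η₁ * ℓ) := by
            apply Real.exp_le_exp.2
            exact mul_le_mul_of_nonneg_right hη21 (by linarith)
    exact ⟨P, hP, h1.trans (mul_le_mul_of_nonneg_right h3 (by positivity)),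
      h2.trans (mul_le_mul_of_nonneg_right h3 (by positivity))⟩

end Pool.Agent.L5helper30.LD
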