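import Pool.Agent.L5helper30.LD.Main
import Pool.Agent.Y849.LW.Fin

/-!
From the multiplicative group of the rational numbers to sets of integers.
-/

set_option autoImplicit false

namespace Pool.Agent.L5helper30.LD

open Finset Pool.Agent.H384R3.SPk Pool.Agent.Y849.LW
open scoped Pointwise

/-- the multiplicative group of the rational numbers, written additively -/
abbrev GQ : Type := Additive ℚˣ

/-- a nonzero integer as an element of the group -/
noncomputable def phi (a : ℤ) : GQ :=
  Additive.ofMul (if h : (a : ℚ) ≠ 0 then Units.mk0 (a : ℚ) h else 1)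

/-- the value of an element of the group -/
def val (x : GQ) : ℚ := ((Additive.toMul x : ℚˣ) : ℚ)

theorem val_ne (x : GQ) : val x ≠ 0 := Units.ne_zero _

theorem val_add (x y : GQ) : val (x + y) = val x * val y := by
  unfold val
  rw [toMul_add, Units.val_mul]

theorem val_inj {x y : GQ} (h : val x = val y) : x = y := by
  unfold val at h
  exact Additive.toMul.injective (Units.ext h)

theorem val_phi {a : ℤ} (ha : a ≠ 0) : val (phi a) = a := by
  unfold val phi
  have h : (a : ℚ) ≠ 0 := by exact_mod_cast ha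
  rw [dif_pos h]
  rfl

theorem val_sum {ι : Type*} (s : Finset ι) (f : ι → GQ) : val (∑ i ∈ s, f i) = ∏ i ∈ s, val (f i) := by
  classical
  induction s using Finset.induction_on with
  | empty => simp [val]
  | insert i s hi ih => rw [Finset.sum_insert hi, Finset.prod_insert hi, val_add, ih]

theorem phi_inj {a b : ℤ} (ha : a ≠ 0) (hb : b ≠ 0) (h : phi a = phi b) : a = b := by
  have := congrArg val h
  rw [val_phi ha, val_phi hb] at this
  exact_mod_cast this

/-- the `m`-fold multiplicative energy -/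
def mulEn (B : Finset ℤ) (m : ℕ) : ℕ :=
  (((Fintype.piFinset fun _ : Fin m => B) ×ˢ (Fintype.piFinset fun _ : Fin m => B)).filter
    fun p => ∏ i, p.1 i = ∏ i, p.2 i).card

theorem mulEn_le (B : Finset ℤ) (h0 : (0 : ℤ) ∉ B) (B' : Finset GQ) (hB : ∀ a ∈ B, phi a ∈ B')
    (m : ℕ) : mulEn B m ≤ En B' m := by
  unfold mulEn En
  have hne : ∀ a ∈ B, a ≠ 0 := fun a ha h => h0 (h ▸ ha)
  refine Finset.card_le_card_of_injOn (fun p => (fun i => phi (p.1 i), fun i => phi (p.2 i))) ?_ ?_
  · intro p hp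
    simp only [coe_filter, mem_product, Fintype.mem_piFinset, Set.mem_ofPred_eq] at hp ⊢
    obtain ⟨⟨h1, h2⟩, h3⟩ := hp
    refine ⟨⟨fun i => hB _ (h1 i), fun i => hB _ (h2 i)⟩, ?_⟩
    apply val_inj
    rw [val_sum, val_sum, Finset.prod_congr rfl fun i _ => val_phi (hne _ (h1 i)),
      Finset.prod_congr rfl fun i _ => val_phi (hne _ (h2 i))]
    exact_mod_cast h3
  · intro p hp q hq hpq
    simp only [coe_filter, mem_product, Fintype.mem_piFinset, Set.mem_ofPred_eq] at hp hq
    rw [Prod.mk.injEq] at hpq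
    refine Prod.ext ?_ ?_
    · funext i
      exact phi_inj (hne _ (hp.1.1 i)) (hne _ (hq.1.1 i)) (congrFun hpq.1 i)
    · funext i
      exact phi_inj (hne _ (hp.1.2 i)) (hne _ (hq.1.2 i)) (congrFun hpq.2 i)

/-- common denominator -/
def cden (P : Finset GQ) : ℕ := ∏ p ∈ P, (val p).den

theorem cden_pos (P : Finset GQ) : 0 < cden P := Finset.prod_pos fun p _ => (val p).den_pos

theorem cden_mul (P : Finset GQ) {p : GQ} (hp : p ∈ P) : ∃ z : ℤ, (cden P : ℚ) * val p = z := by
  obtain ⟨d, hd⟩ := Finset.dvd_prod_of_mem (fun p => (val p).den) hp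
  refine ⟨d * (val p).num, ?_⟩
  have h1 : (cden P : ℚ) = (val p).den * d := by
    unfold cden
    exact_mod_cast hd
  have h2 := Rat.mul_den_eq_num (val p)
  rw [h1]
  push_cast
  rw [← h2]
  ring

/-- the integral absolute value -/
def psi (P : Finset GQ) (p : GQ) : ℤ := ((cden P : ℚ) * |val p|).num

theorem psi_eq (P : Finset GQ) {p : GQ} (hp : p ∈ P) : (psi P p : ℚ) = cden P * |val p| := by
  obtain ⟨z, hz⟩ := cden_mul P hp
  have h1 : (cden P : ℚ) * |val p| = ((|z| : ℤ) : ℚ) := by
    have h2 : (0 : ℚ) < cden P := by exact_mod_cast cden_pos P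
    rw [← abs_of_pos h2, ← abs_mul, hz]
    push_cast
    rfl
  unfold psi
  rw [h1, Rat.num_intCast]

theorem psi_pos (P : Finset GQ) {p : GQ} (hp : p ∈ P) : 0 < psi P p := by
  have h1 := psi_eq P hp
  have h2 : (0 : ℚ) < cden P := by exact_mod_cast cden_pos P
  have h3 : 0 < |val p| := abs_pos.2 (val_ne p)
  have h4 : (0 : ℚ) < psi P p := by
    rw [h1]
    positivity
  exact_mod_cast h4

/-- the positive integers which represent `P` -/
def Pt (P : Finset GQ) : Finset ℤ := P.image (psi P)

theorem Pt_pos (P : Finset GQ) : ∀ b ∈ Pt P, 0 < b := by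
  intro b hb
  obtain ⟨p, hp, rfl⟩ := mem_image.1 hb
  exact psi_pos P hp

theorem card_Pt (P : Finset GQ) : P.card ≤ 2 * (Pt P).card := by
  refine Finset.card_le_mul_card_image P 2 fun b _ => ?_
  rcases ((P.filter fun p => psi P p = b).eq_empty_or_nonempty) with h | ⟨p, hp⟩
  · rw [h]; simp
  · have hsub : (P.filter fun p => psi P p = b) ⊆ {p, p + phi (-1)} := by
      intro q hq
      rw [mem_filter] at hp hq
      have h1 := psi_eq P hp.1
      have h2 := psi_eq P hq.1
      rw [hp.2] at h1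
      rw [hq.2, h1] at h2
      have h3 : (0 : ℚ) < cden P := by exact_mod_cast cden_pos P
      have h4 := mul_left_cancel₀ h3.ne' h2
      rw [mem_insert, mem_singleton]
      rcases abs_eq_abs.1 h4 with h5 | h5
      · exact Or.inl (val_inj h5.symm)
      · right
        apply val_inj
        rw [val_add, val_phi (by norm_num), h5]
        push_cast
        ring
    exact (card_le_card hsub).trans (card_le_two)

theorem card_mul_Pt (S : Finset ℤ) (h0 : (0 : ℤ) ∉ S) (D P : Finset GQ)
    (hS : ∀ a ∈ S, phi a ∈ D) : (S * Pt P).card ≤ 2 * (D + P).card := by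
  have hsub : S * Pt P ⊆ ((D + P).image fun x => ((cden P : ℚ) * val x).num) ∪
      ((D + P).image fun x => -((cden P : ℚ) * val x).num) := by
    intro z hz
    obtain ⟨s, hs, b, hb, rfl⟩ := Finset.mem_mul.1 hz
    obtain ⟨p, hp, rfl⟩ := mem_image.1 hb
    have hs0 : s ≠ 0 := fun h => h0 (h ▸ hs)
    have h1 := psi_eq P hp
    obtain ⟨w, hw⟩ := cden_mul P hp
    have h2 : (cden P : ℚ) * val (phi s + p) = ((s * w : ℤ) : ℚ) := by
      rw [val_add, val_phi hs0]
      push_cast
      rw [← hw]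
      ring
    rw [mem_union, mem_image, mem_image]
    rcases abs_choice (val p) with h3 | h3
    · left
      refine ⟨phi s + p, Finset.add_mem_add (hS s hs) hp, ?_⟩
      rw [h2, Rat.num_intCast]
      rw [h3, hw] at h1
      have h4 : psi P p = w := by exact_mod_cast h1
      rw [h4]
    · right
      refine ⟨phi s + p, Finset.add_mem_add (hS s hs) hp, ?_⟩
      rw [h2, Rat.num_intCast]
      rw [h3, mul_neg, hw] at h1
      have h4 : psi P p = -w := by exact_mod_cast h1
      rw [h4]
      ring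
  refine (card_le_card hsub).trans ((card_union_le _ _).trans ?_)
  have h1 := Finset.card_image_le (s := D + P) (f := fun x => ((cden P : ℚ) * val x).num)
  have h2 := Finset.card_image_le (s := D + P) (f := fun x => -((cden P : ℚ) * val x).num)
  omega

theorem card_prod_Pt (P : Finset GQ) : (prodset fun _ : Fin 2 => Pt P).card ≤ (P + P).card := by
  have hsub : (prodset fun _ : Fin 2 => Pt P) ⊆
      (P + P).image fun x => ((cden P : ℚ) ^ 2 * |val x|).num := by
    intro z hz
    obtain ⟨f, hf, rfl⟩ := mem_image.1 hz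
    rw [Fintype.mem_piFinset] at hf
    obtain ⟨p, hp, hp'⟩ := mem_image.1 (hf 0)
    obtain ⟨q, hq, hq'⟩ := mem_image.1 (hf 1)
    refine mem_image.2 ⟨p + q, Finset.add_mem_add hp hq, ?_⟩
    have h1 : (cden P : ℚ) ^ 2 * |val (p + q)| = ((f 0 * f 1 : ℤ) : ℚ) := by
      push_cast
      rw [← hp', ← hq', psi_eq P hp, psi_eq P hq, val_add, abs_mul]
      ring
    rw [h1, Rat.num_intCast, Fin.prod_univ_two]
  exact (card_le_card hsub).trans card_image_le

theorem card_add_self (P : Finset GQ) (hP : P.Nonempty) {R : ℝ}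
    (h : ((P - P).card : ℝ) ≤ R * P.card) : ((P + P).card : ℝ) ≤ R ^ 2 * P.card := by
  have h1 := Finset.pluennecke_ruzsa_inequality_nsmul_sub hP P 2
  rw [two_nsmul] at h1
  have h2 : ((P + P).card : ℝ) ≤ (((P - P).card : ℝ) / P.card) ^ 2 * P.card := by
    have h3 : (((P + P).card : NNRat) : ℝ) ≤
        (((((P - P).card : NNRat) / P.card) ^ 2 * P.card : NNRat) : ℝ) := by
      exact_mod_cast h1
    push_cast at h3
    exact h3
  refine h2.trans ?_
  have hc : (0 : ℝ) < P.card := by exact_mod_cast hP.card_pos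
  refine mul_le_mul_of_nonneg_right ?_ hc.le
  refine pow_le_pow_left₀ (by positivity) ?_ 2
  rw [div_le_iff₀ hc]
  exact h

/-- **A piece is a `Λ(2k)` set.** -/
theorem piece_lambda {k : ℕ} (hk : 2 ≤ k) {β : ℝ} (h : Cond k 2 β) (S : Finset ℤ)
    (h0 : (0 : ℤ) ∉ S) (D P : Finset GQ) (hS : ∀ a ∈ S, phi a ∈ D) (hP : P.Nonempty) {R : ℝ}
    (hR : 1 ≤ R) (h1 : ((D + P).card : ℝ) ≤ R * P.card) (h2 : ((P - P).card : ℝ) ≤ R * P.card)
    (a : ℤ →₀ ℝ) (ha : a.support ⊆ S) :
    N k a ≤ 4 * R * (2 * R ^ 2) ^ β * ∑ m ∈ S, a m ^ 2 := by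
  have hβ := h.pos hk le_rfl
  have hPt : (Pt P).Nonempty := hP.image _
  have h3 := lambda hk le_rfl h h0 hPt (Pt_pos P) a ha
  refine h3.trans (mul_le_mul_of_nonneg_right ?_ (Finset.sum_nonneg fun _ _ => sq_nonneg _))
  have hc : (0 : ℝ) < (Pt P).card := by exact_mod_cast hPt.card_pos
  have hcP : (P.card : ℝ) ≤ 2 * (Pt P).card := by exact_mod_cast card_Pt P
  have e1 : ((S * Pt P).card : ℝ) / (Pt P).card ≤ 4 * R := by
    rw [div_le_iff₀ hc]
    have e2 : ((S * Pt P).card : ℝ) ≤ 2 * (D + P).card := by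
      exact_mod_cast card_mul_Pt S h0 D P hS
    nlinarith
  have e3 : ((prodset fun _ : Fin 2 => Pt P).card : ℝ) / (Pt P).card ≤ 2 * R ^ 2 := by
    rw [div_le_iff₀ hc]
    have e4 : ((prodset fun _ : Fin 2 => Pt P).card : ℝ) ≤ (P + P).card := by
      exact_mod_cast card_prod_Pt P
    have e5 := card_add_self P hP h2
    have e6 : R ^ 2 * (P.card : ℝ) ≤ R ^ 2 * (2 * (Pt P).card) :=
      mul_le_mul_of_nonneg_left hcP (by positivity)
    linarith
  refine mul_le_mul e1 (Real.rpow_le_rpow (by positivity) e3 hβ.le) (by positivity)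
    (by positivity)

end Pool.Agent.L5helper30.LD
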